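import Pool.Agent.helper62.Reduction

/-!
# Complementary Maximal Strip Recovery on strings is NP-hard already for `k = 0`

Strings are lists of natural numbers, so the alphabet is not bounded. Decision problems, the class
`NP`, polynomial-time computability, the encoding of pairs, lists and numbers by bit strings
(`N487b59b3.bitDecode`) and many-one reductions are those of `Pool.Prelude`.
-/

namespace Pool.Agent.Results.MP_cb2135_lc.CMSRZeroNPHard

open N68a2faeb N793a5b8e

/-- `P` is a strip partition of the string `S`: a factorisation of `S` into consecutive blocks,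
each of length at least `2`. -/
def IsStripPartition (P : List (List ℕ)) (S : List ℕ) : Prop :=
  P.flatten = S ∧ ∀ B ∈ P, 2 ≤ B.length

/-- `S` and `T` admit a common strip partition: there are strip partitions `P` of `S` and `Q` of
`T` whose blocks are the same words, each word occurring equally often in `P` and in `Q`. -/
def HasCommonStripPartition (S T : List ℕ) : Prop :=
  ∃ P Q : List (List ℕ), IsStripPartition P S ∧ IsStripPartition Q T ∧ P.Perm Q

/-- The question of `CMSR` on the strings `G₁`, `G₂` and the number `k`: some subsequences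
`G₁'`, `G₂'` admit a common strip partition, and `G₁'` misses at most `k` letters of `G₁`. -/
def CMSR (G₁ G₂ : List ℕ) (k : ℕ) : Prop :=
  ∃ G₁' G₂' : List ℕ, G₁'.Sublist G₁ ∧ G₂'.Sublist G₂ ∧ HasCommonStripPartition G₁' G₂' ∧
    G₁.length ≤ G₁'.length + k

open Classical in
/-- The decision problem `CMSR` with `k = 0`: a bit string is accepted if it is the code of a pair
of balanced strings `G₁`, `G₂` (each letter occurs equally often in both) for which the answer to
`CMSR G₁ G₂ 0` is yes. -/
noncomputable def cmsrZero : DecisionProblem := fun x =>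
  decide (∃ G₁ G₂ : List ℕ, N487b59b3.bitDecode x = some (G₁, G₂) ∧ G₁.Perm G₂ ∧ CMSR G₁ G₂ 0)

lemma length_eq_of_csp {S T : List ℕ} (h : HasCommonStripPartition S T) :
    S.length = T.length := by
  obtain ⟨P, Q, ⟨rfl, _⟩, ⟨rfl, _⟩, hPQ⟩ := h
  exact hPQ.flatten.length_eq

lemma cmsr_zero_iff {G₁ G₂ : List ℕ} (hb : G₁.Perm G₂) :
    CMSR G₁ G₂ 0 ↔ Pool.Agent.helper62.HasCommonStripPartition G₁ G₂ := by
  constructor
  · rintro ⟨G₁', G₂', h1, h2, h3, h4⟩
    have e1 : G₁' = G₁ := h1.eq_of_length_le (by omega)
    have e2 : G₂' = G₂ := h2.eq_of_length_le (by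
      have := length_eq_of_csp h3
      have := hb.length_eq
      omega)
    subst e1 e2
    exact h3
  · intro h
    exact ⟨G₁, G₂, List.Sublist.refl _, List.Sublist.refl _, h, by omega⟩

/-- **Theorem.** `CMSR` on strings is NP-hard already for `k = 0`: every decision problem in `NP`
is polynomial-time many-one reducible to it. -/
theorem result : ∀ L ∈ NP, ManyOneReducible L cmsrZero := by
  intro L hL
  obtain ⟨f, _, h2, h3⟩ := Pool.Agent.helper62.np_hard L hL
  refine ⟨fun x => N487b59b3.bitEncode (f x), h2, fun x => ?_⟩
  have key : cmsrZero (N487b59b3.bitEncode (f x)) = true ↔ L x = true := by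
    rw [(h3 x).2]
    simp only [cmsrZero, decide_eq_true_eq]
    constructor
    · rintro ⟨G₁, G₂, hG, hb, hc⟩
      rw [N487b59b3.bitDecode_bitEncode] at hG
      have hG' : f x = (G₁, G₂) := Option.some.inj hG
      rw [hG']
      exact (cmsr_zero_iff hb).1 hc
    · intro h
      exact ⟨(f x).1, (f x).2, N487b59b3.bitDecode_bitEncode (f x), (h3 x).1,
        (cmsr_zero_iff (h3 x).1).2 h⟩
  exact Bool.eq_iff_iff.2 key.symm

end Pool.Agent.Results.MP_cb2135_lc.CMSRZeroNPHard
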